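import Pool.Agent.W851.BE.Stm

/-! Project BE, part AB: the number of points of types A and B. -/

set_option autoImplicit false

open Polynomial Topology Filter MeasureTheory

namespace Pool.Agent.W637.BE.AB

open Pool.Agent.W95.BK Pool.Agent.W851.BE

universe u

lemma Q_ne_zero {K : Type u} [Field K] (R : RMap K) : R.Q ≠ 0 := by
  intro h0
  have h1 := R.cop
  rw [h0] at h1
  have h2 : IsUnit R.P := isCoprime_zero_right.mp h1
  have h3 := R.deg_eq
  rw [h0, Polynomial.natDegree_eq_zero_of_isUnit h2, natDegree_zero] at h3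
  have := R.pos
  simp at h3
  omega

theorem main : S_HIT.{u} → S_BDD.{u} → S_K2.{u} → S_SEP.{u} → S_ITER.{u} → S_FUNC.{u} →
    S_AB.{u} := by
  intro hHIT hBDD hK2 hSEP hITER hFUNC K _ _ _ R hd hN
  classical
  obtain ⟨δ, ρ, hδ, hδρ, hB⟩ := hBDD K R hd hN
  obtain ⟨C0, hC0⟩ := hK2 K R δ (2 * ρ) hδ
  have hQ : R.Q ≠ 0 := Q_ne_zero R
  set Pi := R.Q.roots.toFinset with hPi
  have hPmem : ∀ b : K, R.Q.eval b = 0 → b ∈ Pi := by
    intro b hb
    rw [hPi, Multiset.mem_toFinset, mem_roots hQ]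
    exact hb
  refine ⟨C0 * (Pi.card * 2), fun n hn S hS => ?_⟩
  obtain ⟨-, hIadd, -, -⟩ := hITER K R
  obtain ⟨hcomp, -⟩ := hFUNC K
  have hex : ∀ x ∈ S, ∃ (i : ℕ) (b : K) (s : ℝ) (ty : Bool), i < n ∧ R.Q.eval b = 0 ∧
      δ ≤ s ∧ s ≤ ρ ∧ (R.iter i).act (x : P1B K) = zt b s ∧
      (R.iter n).act (x : P1B K) = (x : P1B K) ∧
      (ty = true → EA (R.iter n) b s) ∧ (ty = false → EB (R.iter n) b s) := by
    intro x hx
    have hcase : ∃ (a : K) (r : ℝ) (hr : 0 < r), x = gauss a r hr ∧
        (TA (R.iter n) a r ∨ TB (R.iter n) a r) := by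
      rcases hS x hx with ⟨a, r, hr, hxa, hT⟩ | ⟨a, r, hr, hxa, hT⟩
      · exact ⟨a, r, hr, hxa, Or.inl hT⟩
      · exact ⟨a, r, hr, hxa, Or.inr hT⟩
    obtain ⟨a, r, hr, hxa, hT⟩ := hcase
    have hzt : zt a r = (x : P1B K) := by rw [hxa]; exact zt_pos a hr
    have hfix : (R.iter n).act (zt a r) = zt a r := by
      rcases hT with hT | hT
      · exact hT.2.2.1
      · exact hT.2.2.1
    obtain ⟨i, hi, b, s, hb, hs, hact, hE⟩ := hHIT K R n a r hn hT
    obtain ⟨h1, h2⟩ := hB n hn b s hb hs hE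
    rw [hzt] at hact hfix
    rcases hE with hE | hE
    · exact ⟨i, b, s, true, hi, hb, h1, h2, hact, hfix, fun _ => hE,
        fun h => absurd h (by simp)⟩
    · exact ⟨i, b, s, false, hi, hb, h1, h2, hact, hfix, fun h => absurd h (by simp),
        fun _ => hE⟩
  choose! i b s ty hi hb hs1 hs2 hact hfix hA hBB using hex
  have hinj : ∀ x ∈ S, ∀ y ∈ S, i x = i y → b x = b y → s x = s y → x = y := by
    intro x hx y hy h1 h2 h3
    have key : ∀ z ∈ S, (R.iter (n - i z)).act (zt (b z) (s z)) = (z : P1B K) := by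
      intro z hz
      rw [← hact z hz, ← hcomp, ← hIadd]
      have : n - i z + i z = n := Nat.sub_add_cancel (hi z hz).le
      rw [this]
      exact hfix z hz
    have h4 := key x hx
    rw [h1, h2, h3, key y hy] at h4
    exact (OnePoint.coe_injective h4).symm
  set t : Finset (ℕ × (K × Bool)) := Finset.range n ×ˢ (Pi ×ˢ (Finset.univ : Finset Bool)) with ht
  have htc : t.card = n * (Pi.card * 2) := by
    rw [ht, Finset.card_product, Finset.card_product, Finset.card_range]
    simp
  have hmain := Finset.card_le_mul_card_image_of_maps_to (s := S) (t := t)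
    (f := fun x => (i x, (b x, ty x)))
    (by
      intro x hx
      rw [ht, Finset.mem_product, Finset.mem_product]
      exact ⟨Finset.mem_range.mpr (hi x hx), hPmem _ (hb x hx), Finset.mem_univ _⟩)
    (C0 * 4 ^ (n / 3))
    (by
      rintro ⟨i₀, b₀, ty₀⟩ _
      set Fi := S.filter (fun x => (i x, (b x, ty x)) = (i₀, (b₀, ty₀))) with hFi
      have hmem : ∀ x ∈ Fi, x ∈ S ∧ i x = i₀ ∧ b x = b₀ ∧ ty x = ty₀ := by
        intro x hx
        rw [hFi, Finset.mem_filter] at hx
        obtain ⟨h1, h2⟩ := hx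
        simp only [Prod.mk.injEq] at h2
        exact ⟨h1, h2.1, h2.2.1, h2.2.2⟩
      have hinjF : Set.InjOn s Fi := by
        intro x hx y hy hxy
        obtain ⟨a1, a2, a3, -⟩ := hmem x hx
        obtain ⟨b1, b2, b3, -⟩ := hmem y hy
        exact hinj x a1 y b1 (a2.trans b2.symm) (a3.trans b3.symm) hxy
      have hcard : (Fi.image s).card = Fi.card := Finset.card_image_of_injOn hinjF
      obtain ⟨X, hX1, hX2, hX3⟩ := hSEP K (R.iter n) b₀ (Fi.image s) δ ρ hδ hδρ
        (by
          intro u hu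
          obtain ⟨x, hx, rfl⟩ := Finset.mem_image.mp hu
          exact ⟨hs1 x (hmem x hx).1, hs2 x (hmem x hx).1⟩)
        (by
          cases hty : ty₀
          · right
            intro u hu
            obtain ⟨x, hx, rfl⟩ := Finset.mem_image.mp hu
            obtain ⟨a1, a2, a3, a4⟩ := hmem x hx
            rw [← a3]
            exact hBB x a1 (a4.trans hty)
          · left
            intro u hu
            obtain ⟨x, hx, rfl⟩ := Finset.mem_image.mp hu
            obtain ⟨a1, a2, a3, a4⟩ := hmem x hx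
            rw [← a3]
            exact hA x a1 (a4.trans hty))
      have hfin := hC0 n b₀ X hX2 hX3
      rw [hX1, hcard] at hfin
      exact hfin)
  rw [htc] at hmain
  calc S.card ≤ C0 * 4 ^ (n / 3) * (n * (Pi.card * 2)) := hmain
    _ = C0 * (Pi.card * 2) * n * 4 ^ (n / 3) := by ring

end Pool.Agent.W637.BE.AB
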